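import Pool.Agent.Helper74.HG.GoalsG
import Pool.Agent.Helper73.HG.MAT

/-!
# Project HG, part 3: packet HG-MATG (disjoint triples), after `Pool.Agent.Helper73.HG.MAT`
-/

namespace Pool.Agent.Helper64.HG.MATG

open MvPolynomial Pool.Agent.Helper74.HG Pool.Agent.Helper84.HG.WD
open Pool.Agent.Helper73.HG.MAT (ind ind_t ind_f D D_ins D_NH D_NH_em D_NH_none D_NH_snone D_NH_en D_NH_esn
  D_split D_card sub3_iff NH mu c3 nd e3_not_mem)

noncomputable section

theorem rk_up {σ : Type} {H : Finset (Finset σ)} (hH : Rk3 H) : Rk3 (upH H) := by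
  intro e he
  unfold upH at he
  rw [Finset.mem_map] at he
  obtain ⟨e', he', rfl⟩ := he
  show 1 ≤ (e'.map (em σ)).card ∧ (e'.map (em σ)).card ≤ 3
  rw [Finset.card_map]
  exact hH e' he'

theorem rk_ins {σ : Type} {H : Finset (Finset σ)} (hH : Rk3 H) {e : Finset σ}
    (he : 1 ≤ e.card ∧ e.card ≤ 3) : Rk3 (ins e H) := by
  intro e' he'
  rcases mem_ins.1 he' with rfl | h
  · exact he
  · exact hH e' h

theorem rk_H0 {σ : Type} {H : Finset (Finset σ)} (hH : Rk3 H) : Rk3 (H0 H) :=
  rk_ins (rk_up hH) (by rw [card_pr none_ne]; omega)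

theorem rk_H1 {σ : Type} {H : Finset (Finset σ)} (hH : Rk3 H) (i : σ) : Rk3 (H1 H i) :=
  rk_ins (rk_H0 hH) (by rw [card_pr (em_ne i)]; omega)

/-- A step with `a = X i`. -/
theorem S1G (hst : STEG) {σ : Type} (H : Finset (Finset σ)) (L : List (ℤ × List σ)) (c : ℤ) (i : σ)
    (y : List σ) :
    RedG (hyp H + (((c, i :: y) :: L).map wp).sum)
      (hyp (H1 H i) + (((-c, none :: y.map (em σ)) :: upL L).map wp).sum) := by
  have h := hst (hyp H + (L.map wp).sum) (X i) ((y.map X).prod) c
  have e1 : hyp H + (((c, i :: y) :: L).map wp).sum =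
      hyp H + (L.map wp).sum + C c * X i * (y.map X).prod := by
    rw [sum_cons, wp_cons]
    ring
  have e2 : hyp (H1 H i) + (((-c, none :: y.map (em σ)) :: upL L).map wp).sum =
      rename (fun i => some (some i)) (hyp H + (L.map wp).sum) +
        rename (fun i => some (some i)) (X i) * X (some none) -
        C c * X none * rename (fun i => some (some i)) ((y.map X).prod) + X none * X (some none) := by
    rw [map_add, rename_hyp, rename_sum, rename_list, rename_X, hyp_H1, sum_cons, wp_cons, em_apply,
      C_neg]
    ring
  rw [e1, e2]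
  exact h

theorem red_NH (htr : TRAG) (hst : STEG) {σ : Type} (G : Finset (Finset σ)) {x y z : σ}
    (hxy : x ≠ y) (hxz : x ≠ z) (hyz : y ≠ z) (hG : toF [x, y, z] ∉ G) :
    RedG (hyp (ins (toF [x, y, z]) G)) (hyp (NH G x y z)) := by
  have e1 : hyp (ins (toF [x, y, z]) G) = hyp G + (((1, x :: [y, z]) :: []).map wp).sum := by
    have e0 : (((1, x :: [y, z]) :: []).map wp).sum = wp ((1 : ℤ), [x, y, z]) := by
      simp
    rw [hyp_ins hG, prod_toF (by simp [hxy, hxz, hyz]), e0]
    unfold wp
    rw [C_1]
    ring
  have e2 : hyp (NH G x y z) = hyp (H1 (H1 G x) none) +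
      (((- -1, none :: ([em σ y, em σ z].map (em _))) :: upL (upL [])).map wp).sum := by
    unfold NH
    rw [hyp_ins (e3_not_mem G x y z), prod_toF (nd hyz)]
    have e3 : (((- -1, none :: ([em σ y, em σ z].map (em _))) :: upL (upL [])).map wp).sum =
        wp ((- -1 : ℤ), [(none : Option (Option (Option (Option σ)))), em _ (em σ y),
          em _ (em σ z)]) := by
      simp [upL]
    rw [e3]
    unfold wp
    rw [neg_neg, C_1]
    ring
  rw [e1, e2]
  refine htr _ _ _ (S1G hst G [] 1 x [y, z]) ?_
  exact S1G hst (H1 G x) (upL []) (-1) none [em σ y, em σ z]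

theorem main (htr : TRAG) (hst : STEG) (his : ISOG) : ∀ (n : ℕ) (σ : Type) [Fintype σ]
    (H : Finset (Finset σ)), Rk3 H → Sub3 H → mu H ≤ n →
    ∃ (τ : Type) (_ : Fintype τ) (H' : Finset (Finset τ)), Rk3 H' ∧ Sub3 H' ∧ Mat3 H' ∧
      RedG (hyp H) (hyp H') := by
  intro n
  induction n using Nat.strong_induction_on with
  | _ n ih =>
    intro σ _ H hH hS hn
    classical
    by_cases hM : Mat3 H
    · exact ⟨σ, inferInstance, H, hH, hS, hM,
        his AlgEquiv.refl (hyp H)⟩
    · unfold Mat3 at hM
      push Not at hM
      obtain ⟨e₁, h1, e₂, h2, hc1, hc2, hne, hd⟩ := hM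
      rw [Finset.not_disjoint_iff] at hd
      obtain ⟨x, hx1, hx2⟩ := hd
      have hc : (e₂.erase x).card = 2 := by
        rw [Finset.card_erase_of_mem hx2, hc2]
      obtain ⟨y, z, hyz, he⟩ := Finset.card_eq_two.1 hc
      have hy : y ∈ e₂.erase x := by
        rw [he]
        simp
      have hz : z ∈ e₂.erase x := by
        rw [he]
        simp
      have hxy : x ≠ y := (Finset.ne_of_mem_erase hy).symm
      have hxz : x ≠ z := (Finset.ne_of_mem_erase hz).symm
      have hE : e₂ = toF [x, y, z] := by
        rw [← Finset.insert_erase hx2, he]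
        ext v
        rw [mem_toF]
        simp
      set G := H.erase e₂ with hGdef
      have hG : toF [x, y, z] ∉ G := by
        rw [← hE, hGdef]
        exact Finset.notMem_erase _ _
      have hHG : H = ins (toF [x, y, z]) G := by
        ext e
        rw [mem_ins, ← hE, hGdef, Finset.mem_erase]
        constructor
        · intro h
          by_cases hee : e = e₂
          · exact Or.inl hee
          · exact Or.inr ⟨hee, h⟩
        · rintro (rfl | h)
          · exact h2
          · exact h.2
      have hcub : Rk3 (NH G x y z) := by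
        unfold NH
        refine rk_ins (rk_H1 (rk_H1 ?_ x) none) ⟨by rw [c3 hyz]; omega, by rw [c3 hyz]⟩
        intro e he
        exact hH e (Finset.mem_of_mem_erase he)
      have hsub : Sub3 (NH G x y z) := by
        rw [sub3_iff] at hS ⊢
        intro v
        match v with
        | none =>
          rw [D_NH_none _ G x hyz, ind_t trivial]
          omega
        | some none =>
          rw [D_NH_snone _ G x hyz, ind_t trivial]
          omega
        | some (some none) =>
          rw [D_NH_en _ G x hyz, ind_t trivial]
          omega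
        | some (some (some none)) =>
          rw [D_NH_esn _ G x hyz, ind_t trivial]
          omega
        | some (some (some (some i))) =>
          have h1 := D_NH_em (fun _ => True) G x hyz i
          rw [em_apply, em_apply] at h1
          have h2 := hS i
          rw [hHG, D_split _ G hxy hxz hyz hG] at h2
          rw [h1]
          exact h2
      have hmu : mu (NH G x y z) < mu H := by
        have hx : 2 ≤ D (fun k => k = 3) H x := by
          rw [D_card]
          have hsub : ({e₁, e₂} : Finset (Finset σ)) ⊆
              H.filter (fun e => x ∈ e ∧ (fun k => k = 3) e.card) := by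
            intro e he
            rw [Finset.mem_insert, Finset.mem_singleton] at he
            rw [Finset.mem_filter]
            rcases he with rfl | rfl
            · exact ⟨h1, hx1, hc1⟩
            · exact ⟨h2, hx2, hc2⟩
          have := Finset.card_le_card hsub
          rw [Finset.card_pair hne] at this
          exact this
        have hsum : mu (NH G x y z) =
            ∑ i : σ, (D (fun k => k = 3) (NH G x y z) (em _ (em σ i)) - 1) := by
          unfold mu
          rw [Fintype.sum_option, Fintype.sum_option, Fintype.sum_option, Fintype.sum_option]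
          rw [D_NH_none _ G x hyz, D_NH_snone _ G x hyz, D_NH_en _ G x hyz, D_NH_esn _ G x hyz,
            ind_f (p := (2 : ℕ) = 3) (by omega), ind_t (p := (3 : ℕ) = 3) rfl]
          simp [em_apply]
        rw [hsum]
        unfold mu
        have hle : ∀ i : σ, D (fun k => k = 3) (NH G x y z) (em _ (em σ i)) +
            ind (i = x) = D (fun k => k = 3) H i := by
          intro i
          rw [D_NH_em _ G x hyz]
          conv_rhs => rw [hHG]
          rw [D_split _ G hxy hxz hyz hG, ind_f (p := i = x ∧ 2 = 3) (by omega)]
          have : ind (i = x ∧ 3 = 3) = ind (i = x) := by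
            congr 1
            simp
          rw [this]
          omega
        refine Finset.sum_lt_sum (fun i _ => ?_) ⟨x, Finset.mem_univ _, ?_⟩
        · have := hle i
          omega
        · have := hle x
          rw [ind_t rfl] at this
          omega
      obtain ⟨τ, i, H', k1, k2, k3, k4⟩ := ih (mu (NH G x y z)) (by omega) _ _ hcub hsub le_rfl
      refine ⟨τ, i, H', k1, k2, k3, htr _ _ _ ?_ k4⟩
      rw [hHG]
      exact red_NH htr hst G hxy hxz hyz hG

end

/-- Packet HG-MATG. -/
theorem t (htr : TRAG) (hst : STEG) (his : ISOG) : MATG := by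
  intro σ _ H hH hS
  exact main htr hst his (mu H) σ H hH hS le_rfl

end Pool.Agent.Helper64.HG.MATG
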